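import Mathlib
import Pool.Agent.H43R3.SN.StmtsA

/-! # TASK E of project H43-SN -/

set_option autoImplicit false

open Finset

namespace Pool.Agent.H993R3.SN

open Pool.Agent.H43R3.SN

/-- number of elements of `U` which are at least `x` -/
def NN (U : Finset ℕ) (x : ℕ) : ℕ := (U.filter (fun u => x ≤ u)).card

theorem NN_anti (U : Finset ℕ) {x y : ℕ} (h : x ≤ y) : NN U y ≤ NN U x := by
  unfold NN
  apply Finset.card_le_card
  intro u hu
  rw [Finset.mem_filter] at hu ⊢
  exact ⟨hu.1, h.trans hu.2⟩

variable {α : Type} {V : Finset α} {gam : α → α → Prop} {g : α → ℕ} {S h Y : ℕ} {U : Finset ℕ} {t : ℕ → α}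

theorem D1 (H : SD V gam g S h Y U t) (v : α) (hv : v ∈ V) (k : ℕ)
    (hk : ∀ s : Finset α, (∀ w ∈ s, w ∈ V ∧ gam v w) → s.card ≤ k) : NN U (g v) ≤ k + h + 1 := by
  classical
  unfold NN
  set T := U.filter (fun u => g v ≤ u) with hT
  -- the three classes
  set A := T.filter (fun u => ∀ w ∈ V, g w ≠ u - g v) with hA
  set B := T.filter (fun u => u = 2 * g v) with hB
  set C := T.filter (fun u => ∃ w ∈ V, w ≠ v ∧ g w = u - g v) with hC
  have hcov : T ⊆ A ∪ B ∪ C := by
    intro u hu
    by_cases h1 : ∀ w ∈ V, g w ≠ u - g v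
    · rw [Finset.mem_union, Finset.mem_union]
      exact Or.inl (Or.inl (Finset.mem_filter.mpr ⟨hu, h1⟩))
    · push Not at h1
      obtain ⟨w, hw, hwu⟩ := h1
      by_cases h2 : w = v
      · rw [Finset.mem_union, Finset.mem_union]
        refine Or.inl (Or.inr (Finset.mem_filter.mpr ⟨hu, ?_⟩))
        rw [hT, Finset.mem_filter] at hu
        subst h2
        omega
      · rw [Finset.mem_union]
        exact Or.inr (Finset.mem_filter.mpr ⟨hu, w, hw, h2, hwu⟩)
  have hAc : A.card ≤ h := by
    have h1 : (A.image (fun u => u - g v)).card = A.card := by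
      apply Finset.card_image_of_injOn
      intro u hu u' hu' he
      have h1 : g v ≤ u := (Finset.mem_filter.mp (Finset.mem_filter.mp hu).1).2
      have h2 : g v ≤ u' := (Finset.mem_filter.mp (Finset.mem_filter.mp hu').1).2
      simp only at he
      omega
    rw [← h1]
    apply H.hole
    intro y hy
    rw [Finset.mem_image] at hy
    obtain ⟨u, hu, rfl⟩ := hy
    have h3 := Finset.mem_filter.mp hu
    have h4 := Finset.mem_filter.mp h3.1
    have h5 := H.UY u h4.1
    exact ⟨by omega, h3.2⟩
  have hBc : B.card ≤ 1 := by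
    rw [Finset.card_le_one]
    intro a ha b hb
    rw [(Finset.mem_filter.mp ha).2, (Finset.mem_filter.mp hb).2]
  have hCc : C.card ≤ k := by
    have hch : ∀ u : ℕ, ∃ w : α, u ∈ C → w ∈ V ∧ w ≠ v ∧ g w = u - g v := by
      intro u
      by_cases hu : u ∈ C
      · obtain ⟨w, h1, h2, h3⟩ := (Finset.mem_filter.mp hu).2
        exact ⟨w, fun _ => ⟨h1, h2, h3⟩⟩
      · exact ⟨v, fun h => absurd h hu⟩
    choose F hF using hch
    have h1 : (C.image F).card = C.card := by
      apply Finset.card_image_of_injOn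
      intro u hu u' hu' he
      have h1 : g v ≤ u := (Finset.mem_filter.mp (Finset.mem_filter.mp hu).1).2
      have h2 : g v ≤ u' := (Finset.mem_filter.mp (Finset.mem_filter.mp hu').1).2
      have h3 := (hF u hu).2.2
      have h4 := (hF u' hu').2.2
      rw [he] at h3
      omega
    rw [← h1]
    apply hk
    intro w hw
    rw [Finset.mem_image] at hw
    obtain ⟨u, hu, rfl⟩ := hw
    obtain ⟨hw1, hw2, hw3⟩ := hF u hu
    have h3 := Finset.mem_filter.mp hu
    have h4 := Finset.mem_filter.mp h3.1
    have h5 := H.UY u h4.1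
    have h6 : g v + g (F u) = u := by omega
    refine ⟨hw1, (H.adj v hv (F u) hw1 (Ne.symm hw2) (by omega)).mpr ?_⟩
    rw [h6]; exact h4.1
  calc T.card ≤ (A ∪ B ∪ C).card := Finset.card_le_card hcov
    _ ≤ (A ∪ B).card + C.card := Finset.card_union_le _ _
    _ ≤ A.card + B.card + C.card := Nat.add_le_add_right (Finset.card_union_le _ _) _
    _ ≤ k + h + 1 := by omega

theorem D2 (H : SD V gam g S h Y U t) (i : ℕ) (hi : i ≤ S) : S - i ≤ NN U (g (t i)) := by
  classical
  set J := (Finset.range (S - i + 1)).erase i with hJ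
  have hJc : S - i ≤ J.card := by
    have := Finset.pred_card_le_card_erase (s := Finset.range (S - i + 1)) (a := i)
    rw [Finset.card_range, ← hJ] at this
    omega
  have hmem : ∀ j ∈ J, j ≤ S ∧ j ≠ i ∧ i + j ≤ S := by
    intro j hj
    rw [hJ, Finset.mem_erase, Finset.mem_range] at hj
    refine ⟨by omega, hj.1, by omega⟩
  have hinj : (J.image (fun j => g (t i) + g (t j))).card = J.card := by
    apply Finset.card_image_of_injOn
    intro j hj j' hj' he
    simp only at he
    have h1 := hmem j hj
    have h2 := hmem j' hj'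
    have h3 : g (t j) = g (t j') := by omega
    exact H.tinj j h1.1 j' h2.1 (H.inj (H.tV j h1.1) (H.tV j' h2.1) h3)
  refine hJc.trans ?_
  rw [← hinj]
  unfold NN
  apply Finset.card_le_card
  intro u hu
  rw [Finset.mem_image] at hu
  obtain ⟨j, hj, rfl⟩ := hu
  have h1 := hmem j hj
  have h2 : gam (t i) (t j) := (H.tt i hi j h1.1).mpr ⟨Ne.symm h1.2.1, h1.2.2⟩
  have h3 := H.tl i hi (t j) (H.tV j h1.1) h2
  have hne : t i ≠ t j := fun he => h1.2.1 (H.tinj i hi j h1.1 he).symm
  rw [Finset.mem_filter]
  exact ⟨(H.adj (t i) (H.tV i hi) (t j) (H.tV j h1.1) hne h3).mp h2, by omega⟩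

theorem deg_t (H : SD V gam g S h Y U t) (i : ℕ) (hi : i ≤ S) (s : Finset α)
    (hs : ∀ w ∈ s, w ∈ V ∧ gam (t i) w) : s.card ≤ S - i + 3 := by
  classical
  set A := s.filter (fun w => ∃ j, j ≤ S ∧ w = t j) with hA
  set B := s.filter (fun w => ¬ ∃ j, j ≤ S ∧ w = t j) with hB
  have hAc : A.card ≤ S - i + 1 := by
    have hsub : A ⊆ (Finset.range (S - i + 1)).image t := by
      intro w hw
      rw [hA, Finset.mem_filter] at hw
      obtain ⟨hw1, j, hj, rfl⟩ := hw
      have h1 := (H.tt i hi j hj).mp (hs _ hw1).2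
      rw [Finset.mem_image]
      exact ⟨j, by rw [Finset.mem_range]; omega, rfl⟩
    calc A.card ≤ _ := Finset.card_le_card hsub
      _ ≤ (Finset.range (S - i + 1)).card := Finset.card_image_le
      _ = _ := Finset.card_range _
  have hBc : B.card ≤ 2 := by
    apply H.tx i hi
    intro w hw
    rw [hB, Finset.mem_filter] at hw
    refine ⟨(hs w hw.1).1, (hs w hw.1).2, ?_⟩
    intro j hj he
    exact hw.2 ⟨j, hj, he⟩
  have : s.card = A.card + B.card := (Finset.card_filter_add_card_filter_not _).symm
  omega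

theorem gt_le_Y (H : SD V gam g S h Y U t) (hS : 1 ≤ S) (i : ℕ) (hi : i ≤ S) : g (t i) ≤ Y := by
  by_cases h0 : i = 0
  · subst h0
    have h1 : gam (t 0) (t 1) := (H.tt 0 hi 1 hS).mpr ⟨by omega, by omega⟩
    have := H.tl 0 hi (t 1) (H.tV 1 hS) h1
    omega
  · have h1 : gam (t i) (t 0) := (H.tt i hi 0 (by omega)).mpr ⟨h0, by omega⟩
    have := H.tl i hi (t 0) (H.tV 0 (by omega)) h1
    omega

theorem taskE : TaskE := by
  classical
  intro α V gam g S h Y U t H hS
  have hN1 : ∀ i ≤ S, NN U (g (t i)) ≤ S - i + 3 + h + 1 := fun i hi =>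
    D1 H (t i) (H.tV i hi) (S - i + 3) (deg_t H i hi)
  have hN2 : ∀ v ∈ V, (∀ i ≤ S, v ≠ t i) → g v ≤ Y → NN U (g v) ≤ h + 3 := by
    intro v hv hvt hvY
    have := D1 H v hv 2 (H.low v hv hvt hvY)
    omega
  have hlow : ∀ i, i ≤ S → i ≤ g (t i) + h + 4 := by
    intro i hi
    have h1 : S ≤ U.card := by
      have h2 := D2 H 0 (Nat.zero_le S)
      have h3 : NN U (g (t 0)) ≤ U.card := Finset.card_le_card (Finset.filter_subset _ _)
      omega
    have h4 : U.card = NN U (g (t i)) + (U.filter (fun u => ¬ g (t i) ≤ u)).card :=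
      (Finset.card_filter_add_card_filter_not _).symm
    have h5 : (U.filter (fun u => ¬ g (t i) ≤ u)).card ≤ g (t i) := by
      have : U.filter (fun u => ¬ g (t i) ≤ u) ⊆ Finset.range (g (t i)) := by
        intro u hu
        rw [Finset.mem_filter] at hu
        rw [Finset.mem_range]; omega
      calc _ ≤ _ := Finset.card_le_card this
        _ = _ := Finset.card_range _
    have h6 := hN1 i hi
    omega
  refine ⟨fun i hi => ⟨?_, hlow i (by omega)⟩, ?_⟩
  · -- upper bound
    have hiS : i ≤ S := by omega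
    have hxY := gt_le_Y H (by omega) i hiS
    set x := g (t i) with hx
    have hNx := D2 H i hiS
    rw [← hx] at hNx
    set A := (Finset.range x).filter (fun y => ∀ v ∈ V, g v ≠ y) with hA
    set B := (Finset.range x).filter (fun y => ¬ ∀ v ∈ V, g v ≠ y) with hB
    have hAc : A.card ≤ h := by
      apply H.hole
      intro y hy
      rw [hA, Finset.mem_filter, Finset.mem_range] at hy
      exact ⟨by omega, hy.2⟩
    have hBc : B.card ≤ i + h + 5 := by
      have hsub : B ⊆ (Finset.range (i + h + 5)).image (fun j => g (t j)) := by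
        intro y hy
        rw [hB, Finset.mem_filter, Finset.mem_range] at hy
        obtain ⟨hyx, hy2⟩ := hy
        push Not at hy2
        obtain ⟨v, hv, hvy⟩ := hy2
        have hmono := NN_anti U hyx.le
        by_cases hvt : ∀ j ≤ S, v ≠ t j
        · exfalso
          have := hN2 v hv hvt (by omega)
          rw [hvy] at this
          omega
        · push Not at hvt
          obtain ⟨j, hj, hvj⟩ := hvt
          have h1 := hN1 j hj
          rw [← hvj, hvy] at h1
          rw [Finset.mem_image]
          refine ⟨j, ?_, ?_⟩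
          · rw [Finset.mem_range]; omega
          · rw [← hvj, hvy]
      calc B.card ≤ _ := Finset.card_le_card hsub
        _ ≤ (Finset.range (i + h + 5)).card := Finset.card_image_le
        _ = _ := Finset.card_range _
    have hsum : (Finset.range x).card = A.card + B.card := (Finset.card_filter_add_card_filter_not _).symm
    rw [Finset.card_range] at hsum
    omega
  · intro v hv hvt hvY
    have h1 := hN2 v hv hvt hvY
    have h2 := D2 H (S - h - 4) (by omega)
    have h3 := hlow (S - h - 4) (by omega)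
    have h4 : g (t (S - h - 4)) < g v := by
      by_contra hcon
      have := NN_anti U (not_lt.mp hcon)
      omega
    omega

end Pool.Agent.H993R3.SN
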